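import Pool.Agent.Q46.DmmG

/-!
# MP_e0e142_ag, Q1: Gaussian double Markovian models need not be connected

For `n = 12`, `E_H` = pairs at cyclic distance 1 or 2 and `E_G` = pairs at cyclic distance 1, 3, 4
or 6, the correlation model `M_1(G,H)` has an isolated point different from the identity, namely
the circulant matrix with entries `1`, `-√7/4` (distance 1), `1/4` (distance 2) and `0` elsewhere.
Hence neither `M_1(G,H)` nor `M(G,H)` is connected, and the answer to Q1 is negative.
-/

namespace Pool.Agent.Results.MP_e0e142_ag.IsolatedCorrelation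

/-- The Gaussian double Markovian model `M(G,H)`: real positive definite (symmetric) matrices `S`
with `(S⁻¹)_{ij} = 0` for all non-edges `ij` of `G` and `S_{ij} = 0` for all non-edges `ij` of
`H`. -/
def model {n : ℕ} (G H : SimpleGraph (Fin n)) : Set (Matrix (Fin n) (Fin n) ℝ) :=
  {S | S.PosDef ∧ (∀ i j, i ≠ j → ¬ G.Adj i j → S⁻¹ i j = 0) ∧
    (∀ i j, i ≠ j → ¬ H.Adj i j → S i j = 0)}

/-- The correlation model `M_1(G,H)`: the members of `M(G,H)` with all diagonal entries `1`. -/
def corrModel {n : ℕ} (G H : SimpleGraph (Fin n)) : Set (Matrix (Fin n) (Fin n) ℝ) :=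
  {S | S ∈ model G H ∧ ∀ i, S i i = 1}

/-- There are graphs `G`, `H` on 12 vertices such that neither `M(G,H)` nor `M_1(G,H)` is
connected; moreover `M_1(G,H)` has an isolated point different from the identity matrix. -/
theorem result : ∃ G H : SimpleGraph (Fin 12),
    ¬ IsConnected (model G H) ∧ ¬ IsConnected (corrModel G H) ∧
    ∃ S ∈ corrModel G H, S ≠ 1 ∧
      ∃ ε > 0, ∀ T ∈ corrModel G H, (∀ i j, |T i j - S i j| < ε) → T = S := by
  refine ⟨Q46.Dmm.GG, Q46.Dmm.HG,
    Q46.Dmm.model_not_connected Q46.Dmm.corr_not_connected, Q46.Dmm.corr_not_connected,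
    Q46.Dmm.S0, Q46.Dmm.S0_mem, Q46.Dmm.S0_ne_one, 1 / 100000000000, by norm_num, ?_⟩
  intro T hT hX
  exact Q46.Dmm.isolated hT hX

end Pool.Agent.Results.MP_e0e142_ag.IsolatedCorrelation
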